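import Pool.Agent.H8.BullMNWD

/-!
# Bull-free minimally non-perfectly-weight-divisible graphs are triangle-free
-/

set_option autoImplicit false

namespace Pool.Agent.H8.Kept.BullFreeMNWD

/-- The bull: the triangle `0 1 2` with the pendant edges `0 3` and `1 4`. -/
def bull : SimpleGraph (Fin 5) :=
  SimpleGraph.fromEdgeSet {s(0, 1), s(0, 2), s(1, 2), s(0, 3), s(1, 4)}

/-- `G` is perfect: chromatic number and clique number agree for all induced subgraphs. -/
def IsPerfect {V : Type} (G : SimpleGraph V) : Prop :=
  ∀ S : Set V, (G.induce S).chromaticNumber = ((G.induce S).cliqueNum : ℕ∞)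

/-- The largest total weight of a clique of `G` inside the vertex set `S`. -/
noncomputable def cliqueWeight {V : Type} (G : SimpleGraph V) (w : V → ℕ) (S : Set V) : ℕ :=
  sSup {n | ∃ K : Finset V, (K : Set V) ⊆ S ∧ G.IsClique (K : Set V) ∧ n = ∑ x ∈ K, w x}

/-- `G` is perfectly weight divisible: for all positive weights `w`, each nonempty vertex set `S`
splits into `P` and `W` with `G[P]` perfect and `ω_w(G[W]) < ω_w(G[S])`. -/
def PerfectlyWeightDivisible {V : Type} (G : SimpleGraph V) : Prop :=
  ∀ w : V → ℕ, (∀ v, 0 < w v) → ∀ S : Set V, S.Nonempty → ∃ P W : Set V, P ∪ W = S ∧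
    Disjoint P W ∧ IsPerfect (G.induce P) ∧ cliqueWeight G w W < cliqueWeight G w S

/-- `G` is not perfectly weight divisible, but each proper induced subgraph is. -/
def MNWD {V : Type} (G : SimpleGraph V) : Prop :=
  ¬ PerfectlyWeightDivisible G ∧
    ∀ S : Set V, S ≠ Set.univ → PerfectlyWeightDivisible (G.induce S)

/-- Every finite bull-free MNWD graph is triangle-free. -/
theorem result (V : Type) [Finite V] (G : SimpleGraph V) (hbull : ¬ Nonempty (bull ↪g G))
    (hG : MNWD G) : G.CliqueFree 3 :=
  BullPD.mnwd_cliqueFree (BullPD.bullFree_of_no_bull hbull) hG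

end Pool.Agent.H8.Kept.BullFreeMNWD
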